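import Pool.Agent.MGP.Stmts

/-!
# Row LNK of squad MGP: link across a non-cut
-/

namespace Pool.Agent.MGP.H37

open Pool.Agent.MGP

theorem lnk : LnkStmt := by
  intro G _ f N κ hf hk hN hN2 e j he h1 h2
  obtain ⟨M, rfl⟩ : ∃ M, N = M + 1 := ⟨N - 1, by omega⟩
  have e1 : M + 1 + e - 1 = M + e := by omega
  rw [e1] at h2 ⊢
  -- the integer u
  have hz1 : 2 * (j : ℤ) * (M + 1 + e + 1) < e ^ 2 := by exact_mod_cast h1
  have hz2 : (e : ℤ) ^ 2 < 2 * (j + 1) * (M + e) := by exact_mod_cast h2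
  have hM : (0 : ℤ) < M + e := by
    have : 0 < M := by omega
    positivity
  have hu : (0 : ℤ) < (M : ℤ) + 2 + 2 * j - e := by
    by_contra hcon
    have hle : (M : ℤ) + 2 + 2 * j - e ≤ 0 := by linarith
    have h3 : ((M : ℤ) + 2 + 2 * j - e) * (M + e) ≤ 0 := mul_nonpos_of_nonpos_of_nonneg hle hM.le
    nlinarith [sq_nonneg (M : ℤ)]
  obtain ⟨w, hw⟩ : ∃ w : ℕ, w + e = M + 2 + 2 * j := ⟨M + 2 + 2 * j - e, by omega⟩
  have hwz : (w : ℤ) = (M : ℤ) + 2 + 2 * j - e := by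
    have : (w : ℤ) + e = M + 2 + 2 * j := by exact_mod_cast hw
    linarith
  obtain ⟨a, ha⟩ := hN
  obtain ⟨b, hb⟩ := he
  have ow : Odd w := by
    rw [Nat.odd_iff]
    omega
  have o1 : Odd (M + e) := by
    rw [Nat.odd_iff]
    omega
  have o2 : Odd (M + 1 + e + 1) := by
    rw [Nat.odd_iff]
    omega
  have lo : M ^ 2 < w * (M + e) := by
    have : (M : ℤ) ^ 2 < w * (M + e) := by
      rw [hwz]
      nlinarith
    exact_mod_cast this
  have hi : w * (M + 1 + e + 1) < (M + 1 + 1) ^ 2 := by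
    have : (w : ℤ) * (M + 1 + e + 1) < (M + 1 + 1) ^ 2 := by
      rw [hwz]
      nlinarith
    exact_mod_cast this
  have mid : w * (M + e) ≤ w * (M + 1 + e + 1) := Nat.mul_le_mul_left _ (by omega)
  have k1 : f (w * (M + e)) = κ := by
    apply hk _ (ow.mul o1)
    · rw [Nat.add_sub_cancel]
      exact lo
    · omega
  have k2 : f (w * (M + 1 + e + 1)) = κ := by
    apply hk _ (ow.mul o2)
    · rw [Nat.add_sub_cancel]
      omega
    · exact hi
  rw [hf w _ ow o1] at k1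
  rw [hf w _ ow o2] at k2
  exact mul_left_cancel (k1.trans k2.symm)

end Pool.Agent.MGP.H37
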