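import Pool.Agent.MGP.Stmts

/-!
# Row MON of squad MGP: the class is monotone
-/

namespace Pool.Agent.MGP.H37

open Pool.Agent.MGP

theorem mon : MonStmt := by
  intro N a b ha hNa hab
  obtain ⟨x, rfl⟩ := Nat.exists_eq_add_of_le hNa
  obtain ⟨y, rfl⟩ := Nat.exists_eq_add_of_le hab
  unfold cl
  rw [Nat.add_sub_cancel_left, show N + x + y - N = x + y by omega,
    Nat.le_div_iff_mul_le (by omega)]
  have h1 : x ^ 2 / (2 * (N + x)) * (2 * (N + x)) ≤ x ^ 2 := Nat.div_mul_le_self _ _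
  generalize x ^ 2 / (2 * (N + x)) = j at h1 ⊢
  have h2 : 2 * j ≤ x := by
    by_contra hcon
    have h3 : x + 1 ≤ 2 * j := by omega
    have h4 : (x + 1) * (N + x) ≤ 2 * j * (N + x) := Nat.mul_le_mul_right _ h3
    nlinarith
  have h5 : 2 * j * y ≤ x * y := Nat.mul_le_mul_right _ h2
  nlinarith [Nat.zero_le (x * y), Nat.zero_le (y ^ 2)]

end Pool.Agent.MGP.H37
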